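import Pool.Agent.Y600.FB.Stm4
import Pool.Agent.H622R2.CoNP

/-!
# `P` relative to a language in `P`
-/

set_option autoImplicit false

namespace Pool.Agent.Y600.PPM

open Pool.Agent.NPC Pool.Agent.H620R2.Gauge
open Pool.Agent.Y600.FB (chi S_SIM4 S_RED4)

/-- One round with the oracle decided by `W`. -/
def stp (D W : List Bool → List Bool) (x a : List Bool) : List Bool :=
  if (D (pairBits x a)).head? = some false then
    a ++ [decide (W (D (pairBits x a)).tail = [true])] else a

theorem run_eq (M : Alg) (W : List Bool → List Bool) (B : Oracle)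
    (hB : ∀ q, B q = decide (W q = [true])) (x : List Bool) : ∀ (n : ℕ) (a z : List Bool),
    M.run B x n a = some z → z = (M.D (pairBits x ((stp M.D W x)^[n] a))).tail
  | 0, a, z, h => by simp [Alg.run] at h
  | n + 1, a, z, h => by
    rw [Function.iterate_succ_apply]
    unfold Alg.run at h
    rcases hD : M.D (pairBits x a) with _ | ⟨b, q⟩
    · rw [hD] at h
      have hs : stp M.D W x a = a := by
        unfold stp
        rw [hD]
        simp
      rw [hs, Function.iterate_fixed hs, hD]
      simpa using h.symm
    · rw [hD] at h
      cases b with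
      | true =>
        have hs : stp M.D W x a = a := by
          unfold stp
          rw [hD]
          simp
        rw [hs, Function.iterate_fixed hs, hD]
        simpa using h.symm
      | false =>
        have hs : stp M.D W x a = a ++ [decide (W q = [true])] := by
          unfold stp
          rw [hD]
          simp
        rw [hs]
        simp only [hB] at h
        exact run_eq M W B hB x n _ _ h

theorem length_stp (D W : List Bool → List Bool) (x : List Bool) :
    ∀ n, ((stp D W x)^[n] []).length ≤ n
  | 0 => by simp
  | n + 1 => by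
    rw [Function.iterate_succ_apply']
    have ih := length_stp D W x n
    have h : ∀ a, (stp D W x a).length ≤ a.length + 1 := by
      intro a
      unfold stp
      split_ifs <;> simp
    exact (h _).trans (by omega)

theorem t_SIM4 : S_SIM4 := by
  classical
  rintro L L' ⟨W, hW, hWL⟩ ⟨V, ⟨M, hM⟩, hV⟩
  have hB : ∀ q, chi L' q = decide (W q = [true]) := by
    intro q
    unfold chi
    simp only [hWL q]
  have hD : Poly M.D := Pool.Agent.H622R2.poly_of_polyTime M.poly
  have hWp : Poly W := Pool.Agent.H622R2.poly_of_polyTime hW
  have hx : Poly (fun p : List Bool × List Bool => M.D (pairBits p.1 p.2)) :=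
    hD.comp (Pool.Agent.H622R2.poly_pairBits (Poly.fst Poly.id) (Poly.snd Poly.id))
  have hstep : Poly (fun p : List Bool × List Bool => stp M.D W p.1 p.2) := by
    unfold stp
    refine Poly.ite (Poly.decide_eq (Poly.head? hx) (NPC.Poly.const _))
      (Poly.append (Poly.snd Poly.id) ?_) (Poly.snd Poly.id)
    exact Poly.cons (Poly.decide_eq (hWp.comp (Poly.tail hx)) (NPC.Poly.const _))
      (NPC.Poly.const _)
  have hk : UPoly (fun x : List Bool => M.p.eval x.length) := UPoly.eval (UPoly.length Poly.id) M.p
  obtain ⟨q, hq⟩ := Poly.sz_le hk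
  have hmain : Poly (fun x : List Bool =>
      (stp M.D W x)^[(List.replicate (M.p.eval x.length) ()).length] []) := by
    refine Poly.iterLen (l := fun x : List Bool => List.replicate (M.p.eval x.length) ())
      (s := fun _ => ([] : List Bool)) (F := fun x => stp M.D W x) hk (NPC.Poly.const _) hstep
      (4 * q + 20) ?_
    intro x j hj
    have h1 := length_stp M.D W x j
    have h2 : sz (List.replicate (M.p.eval x.length) ()) ≤ q.eval (sz x) := hq x
    have h3 := length_lt_sz (List.replicate (M.p.eval x.length) ())
    have h4 := sz_listBool_le ((stp M.D W x)^[j] [])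
    simp only [Polynomial.eval_add, Polynomial.eval_mul, Polynomial.eval_ofNat]
    omega
  have hVp : Poly V := by
    refine (Poly.tail (hD.comp (Pool.Agent.H622R2.poly_pairBits Poly.id hmain))).congr
      fun x => ?_
    rw [List.length_replicate]
    exact (run_eq M W _ hB x _ _ _ (hM x)).symm
  exact ⟨V, Pool.Agent.H622R2.polyTime_of_poly_list hVp, hV⟩

theorem t_RED4 : S_RED4 := by
  classical
  rintro L L' ⟨f, hf, hfL⟩
  have hfp : Poly f := Pool.Agent.H622R2.poly_of_polyTime hf
  have h1 : Poly (fun v : List Bool => (unpair v).1) := Poly.fst poly_unpair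
  have h2 : Poly (fun v : List Bool => (unpair v).2) := Poly.snd poly_unpair
  have hD : Poly (fun v : List Bool => if (unpair v).2 = [] then false :: f (unpair v).1
      else if (unpair v).2 = [true] then [true, true] else [true]) := by
    refine Poly.ite (Poly.decide_eq h2 (NPC.Poly.const _))
      (Poly.cons (NPC.Poly.const _) (hfp.comp h1))
      (Poly.ite (Poly.decide_eq h2 (NPC.Poly.const _)) (NPC.Poly.const _) (NPC.Poly.const _))
  refine ⟨fun x => if f x ∈ L' then [true] else [], ⟨⟨_, Pool.Agent.H622R2.polyTime_of_poly_list hD,
    Polynomial.C 2⟩, fun x => ?_⟩, fun x => ?_⟩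
  · simp only [Alg.out, Polynomial.eval_C, Alg.run, unpair_pairBits, if_true, List.nil_append]
    by_cases h : f x ∈ L'
    · simp [chi, h]
    · simp [chi, h]
  · rw [hfL x]
    by_cases h : f x ∈ L' <;> simp [h]

end Pool.Agent.Y600.PPM
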