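import Pool.Agent.H593R3.PPM.Main
import Pool.Agent.H620R2.Gauge.A1
import Pool.Agent.Y600.FB.Stm4

/-!
# Classes of slowly growing grid-width whose pattern problem has only languages of `P` below it
-/

namespace Pool.Agent.Y600.PPM

open Pool.Agent.NPC Pool.Agent.H593R3.PPM Filter
open Pool.Agent.H620R2.Gauge (Oracle Alg IsP)
open Pool.Agent.Y600.FB (chi S_SIM4 S_RED4)

/-- A slowly growing function which agrees, up to `B l`, with the step function given by the list
`l` of the first thresholds. -/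
theorem exists_slow (B : List ℕ → ℕ) : ∃ (Ls : ℕ → List ℕ) (h : ℕ → ℕ),
    (∀ i, (Ls i).length = i) ∧ (∀ n, 4 ≤ h n) ∧ (∀ G, ∃ N, ∀ n, N ≤ n → G ≤ h n) ∧
    ∀ i n, n ≤ B (Ls i) → h n = hl (Ls i) n := by
  obtain ⟨next, hnext⟩ : ∃ next : List ℕ → ℕ, ∀ l, next l = l.sum + B l + 1 :=
    ⟨_, fun _ => rfl⟩
  obtain ⟨Ls, hL0, hLs⟩ : ∃ Ls : ℕ → List ℕ, Ls 0 = [] ∧ ∀ i, Ls (i + 1) = Ls i ++ [next (Ls i)] :=
    ⟨fun i => Nat.rec [] (fun _ l => l ++ [next l]) i, rfl, fun _ => rfl⟩
  have hlen : ∀ i, (Ls i).length = i := by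
    intro i
    induction i with
    | zero => rw [hL0]; rfl
    | succ i ih => rw [hLs]; simp [ih]
  have hge : ∀ i, i ≤ (Ls i).sum := by
    intro i
    induction i with
    | zero => omega
    | succ i ih => rw [hLs, List.sum_append, List.sum_singleton, hnext]; omega
  have hmono : ∀ i j, i ≤ j → (Ls i).sum ≤ (Ls j).sum := by
    intro i j hij
    induction j, hij using Nat.le_induction with
    | base => exact le_rfl
    | succ j hij ih => rw [hLs, List.sum_append]; omega
  have hstep : ∀ i n, n < next (Ls i) → hl (Ls (i + 1)) n = hl (Ls i) n := by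
    intro i n hn
    rw [hLs, hl, hl, List.filter_append]
    have : List.filter (fun r => decide (r ≤ n)) [next (Ls i)] = [] := by
      rw [List.filter_eq_nil_iff]
      intro r hr
      rw [List.mem_singleton] at hr
      rw [decide_eq_true_eq]
      omega
    rw [this, List.append_nil]
  have hstab : ∀ i m n, i ≤ m → n ≤ (Ls i).sum → hl (Ls m) n = hl (Ls i) n := by
    intro i m n him hn
    induction m, him using Nat.le_induction with
    | base => rfl
    | succ m him ih =>
      rw [hstep m n ?_, ih]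
      have := hmono i m him
      rw [hnext]; omega
  obtain ⟨h, hh⟩ : ∃ h : ℕ → ℕ, ∀ n, h n = hl (Ls n) n := ⟨_, fun _ => rfl⟩
  have hagree : ∀ i n, n < next (Ls i) → h n = hl (Ls i) n := by
    intro i n hn
    rw [hh]
    have h1 : hl (Ls (max n (i + 1))) n = hl (Ls n) n := hstab n _ n (le_max_left _ _) (hge n)
    have h2 : hl (Ls (max n (i + 1))) n = hl (Ls (i + 1)) n := by
      refine hstab (i + 1) _ n (le_max_right _ _) ?_
      rw [hLs, List.sum_append, List.sum_singleton]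
      omega
    rw [← h1, h2, hstep i n hn]
  refine ⟨Ls, h, hlen, fun n => ?_, fun G => ?_, fun i n hn => hagree i n ?_⟩
  · rw [hh, hl]; omega
  · refine ⟨(Ls G).sum + G, fun n hn => ?_⟩
    rw [hh]
    have h1 : ∀ m, G ≤ m → G ≤ hl (Ls m) n := by
      intro m hm
      induction m, hm using Nat.le_induction with
      | base =>
        rw [hl, List.filter_eq_self.2, hlen]
        · omega
        · intro r hr
          have := List.le_sum_of_mem hr
          rw [decide_eq_true_eq]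
          omega
      | succ m hm ih =>
        refine ih.trans ?_
        rw [hLs, hl, hl, List.filter_append, List.length_append]
        omega
    exact h1 n (by omega)
  · rw [hnext]; omega

/-- One requirement. -/
theorem exists_bad (hSIM : S_SIM4) {L : Set (List Bool)} (hL : ¬ InP L) (M : Alg) (l : List ℕ) :
    ∃ (b : ℕ) (x : List Bool), ∀ B' : Oracle,
      (∀ q, plen q ≤ b → B' q = chi (lang (PatternPPM (cl (hl l)))) q) →
      ∀ v, ¬ (M.out B' x = some v ∧ (x ∈ L ↔ v = [true])) := by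
  classical
  have h1 : ∃ x, ∀ v, ¬ (M.out (chi (lang (PatternPPM (cl (hl l))))) x = some v ∧
      (x ∈ L ↔ v = [true])) := by
    by_contra hcon
    push Not at hcon
    choose V hV1 hV2 using hcon
    exact hL (hSIM L _ (inPP_hl l) ⟨V, ⟨M, hV1⟩, hV2⟩)
  obtain ⟨x, hx⟩ := h1
  obtain ⟨_, hqb⟩ := M.out_local
  obtain ⟨Q, -, -, hQ⟩ := hqb (chi (lang (PatternPPM (cl (hl l))))) x
  refine ⟨Q.sup plen, x, fun B' hB' v => ?_⟩
  rw [hQ B' fun q hq => hB' q (Finset.le_sup hq)]
  exact hx v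

/-- **The theorem.** -/
theorem easy (hSIM : S_SIM4) {𝓛 : Set (Set (List Bool))} (hc : 𝓛.Countable)
    (hP : ∀ L ∈ 𝓛, ¬ InP L) {g : ℕ → ℕ} (hg : Tendsto g atTop atTop) :
    ∃ C : Set (List ℕ), PermClass C ∧ UnboundedGW C ∧ (∀ π ∈ C, gw π ≤ 4 + g π.length) ∧
      ∀ L ∈ 𝓛, ¬ IsP (chi (lang (PatternPPM C))) L := by
  classical
  have : Countable 𝓛 := hc.to_subtype
  have : Countable (𝓛 × Alg) := inferInstance
  obtain ⟨f, hf⟩ := exists_injective_nat (𝓛 × Alg)
  choose b x hbx using fun (t : 𝓛 × Alg) (l : List ℕ) =>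
    exists_bad hSIM (hP t.1 t.1.2) t.2 l
  have hN : ∀ t : ℕ, ∃ N, ∀ n, N ≤ n → t < g n := fun t => by
    obtain ⟨N, hN⟩ := eventually_atTop.1 (hg.eventually_gt_atTop t)
    exact ⟨N, hN⟩
  choose Ng hNg using hN
  obtain ⟨Ls, h, h1, h2, h3, h4⟩ := exists_slow (fun l => Ng l.length +
    (if ht : ∃ t, f t = l.length then b ht.choose l else 0))
  refine ⟨cl h, cl_class h, cl_unbounded h2 h3, fun π hπ => ?_, fun L hL hIs => ?_⟩
  · refine (hπ.2 π hπ.1 (Contains.refl π)).trans ?_
    by_contra hcon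
    push Not at hcon
    have h5 : Ng (g π.length) ≤ π.length := by
      by_contra hlt
      have h6 := h4 (g π.length) π.length (by rw [h1]; omega)
      rw [h6, hl] at hcon
      have h7 := List.length_filter_le (fun r => decide (r ≤ π.length)) (Ls (g π.length))
      rw [h1] at h7
      omega
    exact lt_irrefl _ (hNg _ _ h5)
  · obtain ⟨V, ⟨M, hM⟩, hV⟩ := hIs
    have ht : ∃ t, f t = (Ls (f (⟨L, hL⟩, M))).length := ⟨(⟨L, hL⟩, M), (h1 _).symm⟩
    have ht' : ht.choose = (⟨L, hL⟩, M) := hf (by rw [ht.choose_spec, h1])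
    refine hbx (⟨L, hL⟩, M) (Ls (f (⟨L, hL⟩, M))) (chi (lang (PatternPPM (cl h))))
      (fun q hq => ?_) (V (x (⟨L, hL⟩, M) (Ls (f (⟨L, hL⟩, M))))) ⟨hM _, hV _⟩
    have h5 : q ∈ lang (PatternPPM (cl h)) ↔
        q ∈ lang (PatternPPM (cl (hl (Ls (f (⟨L, hL⟩, M)))))) := by
      refine lang_congr (N := plen q + 1) (Nat.lt_succ_self _) fun σ hσ => ?_
      refine cl_congr (N := plen q + 1) (fun n hn => h4 _ n ?_) hσ
      rw [dif_pos ht, ht']
      omega
    unfold chi
    simp only [h5]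

/-- There are only countably many languages in `NP`. -/
theorem countable_NP : {L : Set (List Bool) | InNP L}.Countable := by
  classical
  have h1 : Countable {D : List Bool → List Bool | PolyTime D} :=
    Pool.Agent.H620R2.Gauge.countable_polyTime.to_subtype
  have h3 : Countable (Polynomial ℕ) := by
    have : Function.Injective (fun p : Polynomial ℕ => (p.toFinsupp.coeff : ℕ →₀ ℕ)) := by
      intro p q h
      ext n
      exact DFunLike.congr_fun h n
    exact this.countable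
  have h2 : Countable ({D : List Bool → List Bool | PolyTime D} × Polynomial ℕ) := inferInstance
  refine (Set.countable_range (fun t : {D : List Bool → List Bool | PolyTime D} × Polynomial ℕ =>
    {x : List Bool | ∃ w : List Bool, w.length ≤ t.2.eval x.length ∧
      t.1.1 (pairBits x w) = [true]})).mono ?_
  rintro L ⟨V, p, hV, hL⟩
  exact ⟨(⟨V, hV⟩, p), Set.ext fun x => (hL x).symm⟩

/-- The full statement. -/
theorem full (hSIM : S_SIM4) (hRED : S_RED4) :
    (∀ 𝓛 : Set (Set (List Bool)), 𝓛.Countable → (∀ L ∈ 𝓛, ¬ InP L) →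
      ∀ g : ℕ → ℕ, Tendsto g atTop atTop →
      ∃ C : Set (List ℕ), PermClass C ∧ UnboundedGW C ∧ (∀ π ∈ C, gw π ≤ 4 + g π.length) ∧
        ∀ L ∈ 𝓛, ¬ IsP (chi (lang (PatternPPM C))) L) ∧
    ((∃ L : Set (List Bool), InNP L ∧ ¬ InP L) ↔
      ∃ C : Set (List ℕ), PermClass C ∧ UnboundedGW C ∧ ¬ NPHardP (PatternPPM C) ∧
        ∀ L, InNP L → IsP (chi (lang (PatternPPM C))) L → InP L) := by
  refine ⟨fun 𝓛 hc hP g hg => easy hSIM hc hP hg, ?_, ?_⟩
  · rintro ⟨L, hL, hL'⟩
    obtain ⟨C, h1, h2, -, h4⟩ := easy hSIM (𝓛 := {L | InNP L ∧ ¬ InP L})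
      (countable_NP.mono fun L hL => hL.1) (fun L hL => hL.2) tendsto_id
    have h5 : ¬ IsP (chi (lang (PatternPPM C))) L := h4 L ⟨hL, hL'⟩
    refine ⟨C, h1, h2, fun hh => h5 (hRED _ _ (hh L hL)), fun L₁ hL₁ hIs => ?_⟩
    by_contra hcon
    exact h4 L₁ ⟨hL₁, hcon⟩ hIs
  · rintro ⟨C, hC, hU, hnot, -⟩
    by_contra h
    push Not at h
    exact hnot (hard_of_eq h hC hU)

end Pool.Agent.Y600.PPM
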